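import Pool.Agent.H171R2.Tri.Main
import Pool.Agent.H930R2.Tri.T9

/-!
# Random stable sets of infinite triangle-free hexagonal graphs with marginals 4/9

Stronger form of the starting file `MultipleNineFour` (finite vertex sets), by compactness of the
space of probability measures.
-/

set_option autoImplicit false

namespace Pool.Agent.Results.MP_8fd115_co.InfiniteGraphs

open MeasureTheory Filter Topology Set ProbabilityTheory Pool.Agent.H171R2.Tri
open scoped ENNReal

theorem lim_const {α : Type} [Countable α] {ι : Type} {U : Filter ι} [U.NeBot]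
    {μs : ι → ProbabilityMeasure (α → Bool)} {μ : ProbabilityMeasure (α → Bool)}
    (h : Tendsto μs U (𝓝 μ)) {A : Set (α → Bool)} (hA : IsClopen A) {c : ℝ≥0∞}
    (hc : ∀ᶠ F in U, (μs F : Measure (α → Bool)) A = c) : (μ : Measure (α → Bool)) A = c := by
  have h1 := ProbabilityMeasure.tendsto_measure_of_null_frontier_of_tendsto' h (E := A)
    (by rw [hA.frontier_eq]; simp)
  exact tendsto_nhds_unique h1 (tendsto_const_nhds.congr' (hc.mono fun _ h => h.symm))

theorem clopen_one {α : Type} (v : α) : IsClopen {ω : α → Bool | ω v = true} :=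
  (isClopen_discrete {true}).preimage (continuous_apply v)

theorem clopen_two {α : Type} (u v : α) :
    IsClopen {ω : α → Bool | ω u = true ∧ ω v = true} :=
  (clopen_one u).inter (clopen_one v)

open Classical in
theorem exists_measure {α : Type} [Countable α] (G : SimpleGraph α) (V : Set α)
    (h : ∀ W : Finset α, (W : Set α) ⊆ V → ∃ m : ℕ, 1 ≤ m ∧ ∃ C : α → Finset (Fin (9 * m)),
      (∀ v ∈ W, (C v).card = 4 * m) ∧ ∀ u ∈ W, ∀ v ∈ W, G.Adj u v → Disjoint (C u) (C v)) :
    ∃ μ : Measure (α → Bool), IsProbabilityMeasure μ ∧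
      (∀ v ∈ V, μ {ω | ω v = true} = 4 / 9) ∧
      (∀ᵐ ω ∂μ, ∀ v, ω v = true → v ∈ V) ∧
      ∀ᵐ ω ∂μ, ∀ u v, ω u = true → ω v = true → ¬ G.Adj u v := by
  have h1 : ∀ F : Finset α, ∃ P : ProbabilityMeasure (α → Bool),
      (∀ v ∈ F, v ∈ V → (P : Measure (α → Bool)) {ω | ω v = true} = 4 / 9) ∧
      (∀ v ∉ V, (P : Measure (α → Bool)) {ω | ω v = true} = 0) ∧
      ∀ u v, G.Adj u v → (P : Measure (α → Bool)) {ω | ω u = true ∧ ω v = true} = 0 := by
    intro F
    obtain ⟨m, hm, C, hC1, hC2⟩ := h (F.filter (· ∈ V)) (by intro x hx; simp at hx; exact hx.2)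
    set W := F.filter (· ∈ V) with hW
    have : Nonempty (Fin (9 * m)) := ⟨⟨0, by omega⟩⟩
    let g : Fin (9 * m) → (α → Bool) := fun c v => decide (v ∈ W ∧ c ∈ C v)
    have hg : Measurable g := measurable_of_countable g
    have : IsProbabilityMeasure (uniformOn (univ : Set (Fin (9 * m)))) :=
      isProbabilityMeasure_uniformOn finite_univ univ_nonempty
    let P : ProbabilityMeasure (α → Bool) :=
      ⟨(uniformOn (univ : Set (Fin (9 * m)))).map g, Measure.isProbabilityMeasure_map hg.aemeasurable⟩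
    have key : ∀ (A : Set (α → Bool)) (S : Finset (Fin (9 * m))), MeasurableSet A →
        g ⁻¹' A = ↑S → (P : Measure (α → Bool)) A = (S.card : ℝ≥0∞) / ((9 * m : ℕ) : ℝ≥0∞) := by
      intro A S hA hS
      show ((uniformOn (univ : Set (Fin (9 * m)))).map g) A = _
      rw [Measure.map_apply hg hA, hS, uniformOn_univ, Measure.count_apply_finset, Fintype.card_fin]
    refine ⟨P, ?_, ?_, ?_⟩
    · intro v hv hvV
      have hvW : v ∈ W := by rw [hW, Finset.mem_filter]; exact ⟨hv, hvV⟩
      rw [key _ (C v) (clopen_one v).isOpen.measurableSet (by ext c; simp [g, hvW]), hC1 v hvW]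
      push_cast
      exact ENNReal.mul_div_mul_right 4 9 (by simp; omega) (by simp)
    · intro v hv
      have hvW : v ∉ W := by rw [hW, Finset.mem_filter]; exact fun h => hv h.2
      rw [key _ ∅ (clopen_one v).isOpen.measurableSet (by ext c; simp [g, hvW])]
      simp
    · intro u v huv
      rw [key _ ∅ (clopen_two u v).isOpen.measurableSet ?_]
      · simp
      · ext c
        simp only [mem_preimage, mem_setOf_eq, Finset.coe_empty, mem_empty_iff_false, iff_false,
          g, decide_eq_true_eq]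
        rintro ⟨⟨hu, hcu⟩, hv, hcv⟩
        exact Finset.disjoint_left.1 (hC2 u hu v hv huv) hcu hcv
  choose P hP1 hP2 hP3 using h1
  let U : Ultrafilter (Finset α) := Ultrafilter.of atTop
  have hU : (U : Filter (Finset α)) ≤ atTop := Ultrafilter.of_le atTop
  obtain ⟨μ, -, hμ⟩ := (isCompact_univ (X := ProbabilityMeasure (α → Bool))).ultrafilter_le_nhds
    (U.map P) (by simp)
  have hlim : Tendsto P (U : Filter (Finset α)) (𝓝 μ) := hμ
  have e1 : ∀ v ∈ V, (μ : Measure (α → Bool)) {ω | ω v = true} = 4 / 9 := fun v hv =>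
    lim_const hlim (clopen_one v) (hU ((eventually_ge_atTop {v}).mono fun F hF =>
      hP1 F v (hF (Finset.mem_singleton_self v)) hv))
  have e2 : ∀ v ∉ V, (μ : Measure (α → Bool)) {ω | ω v = true} = 0 := fun v hv =>
    lim_const hlim (clopen_one v) (Eventually.of_forall fun F => hP2 F v hv)
  have e3 : ∀ u v, G.Adj u v → (μ : Measure (α → Bool)) {ω | ω u = true ∧ ω v = true} = 0 :=
    fun u v huv => lim_const hlim (clopen_two u v) (Eventually.of_forall fun F => hP3 F u v huv)
  refine ⟨μ, inferInstance, e1, ?_, ?_⟩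
  · rw [ae_all_iff]
    intro v
    by_cases hv : v ∈ V
    · exact Eventually.of_forall fun _ _ => hv
    · rw [ae_iff]
      convert e2 v hv using 2
      ext ω; simp [hv]
  · rw [ae_all_iff]; intro u; rw [ae_all_iff]; intro v
    by_cases huv : G.Adj u v
    · rw [ae_iff]
      convert e3 u v huv using 2
      ext ω; simp [huv]
    · exact Eventually.of_forall fun _ _ _ => huv

open Classical in
theorem exists_stable {α : Type} [Countable α] (G : SimpleGraph α) (V : Set α)
    (μ : Measure (α → Bool)) [IsProbabilityMeasure μ]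
    (h1 : ∀ v ∈ V, μ {ω | ω v = true} = 4 / 9)
    (h2 : ∀ᵐ ω ∂μ, ∀ v, ω v = true → v ∈ V)
    (h3 : ∀ᵐ ω ∂μ, ∀ u v, ω u = true → ω v = true → ¬ G.Adj u v)
    (w : α → ℝ≥0∞) (hw : ∑' v : V, w v ≠ ∞) :
    ∃ S ⊆ V, (∀ u ∈ S, ∀ v ∈ S, ¬ G.Adj u v) ∧ 4 / 9 * ∑' v : V, w v ≤ ∑' v : S, w v := by
  let f : (α → Bool) → ℝ≥0∞ := fun ω => ∑' v : α, {ω : α → Bool | ω v = true}.indicator
    (fun _ => V.indicator w v) ω
  have hf : ∫⁻ ω, f ω ∂μ = 4 / 9 * ∑' v : V, w v := by
    rw [lintegral_tsum (fun v => (measurable_const.indicator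
      (clopen_one v).isOpen.measurableSet).aemeasurable), tsum_subtype V w, ← ENNReal.tsum_mul_left]
    refine tsum_congr fun v => ?_
    rw [lintegral_indicator_const (clopen_one v).isOpen.measurableSet]
    by_cases hv : v ∈ V
    · rw [h1 v hv, mul_comm]
    · simp [hv]
  have hfin : ∫⁻ ω, f ω ∂μ ≠ ∞ := by
    rw [hf]; exact ENNReal.mul_ne_top (ENNReal.div_ne_top (by simp) (by simp)) hw
  have hnull : μ {ω | ¬ ((∀ v, ω v = true → v ∈ V) ∧
      ∀ u v, ω u = true → ω v = true → ¬ G.Adj u v)} = 0 := ae_iff.1 (h2.and h3)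
  obtain ⟨ω, hω, hle⟩ := exists_notMem_null_lintegral_le hfin hnull
  simp only [mem_setOf_eq, not_not] at hω
  refine ⟨{v | ω v = true}, fun v hv => hω.1 v hv, fun u hu v hv => hω.2 u v hu hv, ?_⟩
  rw [← hf]
  refine hle.trans ?_
  rw [tsum_subtype {v | ω v = true} w]
  refine ENNReal.tsum_le_tsum fun v => ?_
  by_cases hv : ω v = true
  · simp only [f, indicator, mem_setOf_eq, hv, if_true]
    split_ifs <;> simp
  · simp [indicator, hv]

/-- Let `V` be any finite or infinite set of points of the triangular lattice inducing a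
triangle-free graph. (1) There is a random stable subset of `V` which contains each point of `V`
with probability exactly `4/9`. (2) For all weights `w ≥ 0` on the points of `V` with finite sum
some stable subset of `V` has at least `4/9` of the total weight. -/
theorem result (V : Set (ℤ × ℤ)) (hV : (triLattice.induce V).CliqueFree 3) :
    (∃ μ : Measure (ℤ × ℤ → Bool), IsProbabilityMeasure μ ∧
      (∀ v ∈ V, μ {ω | ω v = true} = 4 / 9) ∧
      (∀ᵐ ω ∂μ, ∀ v, ω v = true → v ∈ V) ∧
      ∀ᵐ ω ∂μ, ∀ u v, ω u = true → ω v = true → ¬ triLattice.Adj u v) ∧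
    ∀ w : ℤ × ℤ → ℝ≥0∞, ∑' v : V, w v ≠ ∞ →
      ∃ S ⊆ V, (∀ u ∈ S, ∀ v ∈ S, ¬ triLattice.Adj u v) ∧
        4 / 9 * ∑' v : V, w v ≤ ∑' v : S, w v := by
  have h0 := exists_measure triLattice V (fun W hW => exists_nine_four oct_main W
    (SimpleGraph.CliqueFree.comap ⟨(SimpleGraph.induceHomOfLE triLattice hW).toCopy⟩ hV))
  refine ⟨h0, fun w hw => ?_⟩
  obtain ⟨μ, hμ, h1, h2, h3⟩ := h0
  exact exists_stable triLattice V μ h1 h2 h3 w hw

end Pool.Agent.Results.MP_8fd115_co.InfiniteGraphs
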